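import Mathlib

set_option autoImplicit false

namespace Pool.Agent.Results.MP_d6d41b_al.NotTransitive

/-- The semigroup `S` has a (two-sided) identity element. -/
def HasIdentity (S : Type) [Semigroup S] : Prop :=
  ∃ e : S, ∀ x : S, e * x = x ∧ x * e = x

/-- Strong o-conjugacy: there are mutually inverse `g, h` in `S¹` with `a g = g b` and `b h = h a`,
where `S¹ = S` if `S` has an identity and `S¹ = WithOne S` (identity adjoined) otherwise. -/
def StrongOConj {S : Type} [Semigroup S] (a b : S) : Prop :=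
  (HasIdentity S ∧
    ∃ g h : S, g * h * g = g ∧ h * g * h = h ∧ a * g = g * b ∧ b * h = h * a) ∨
  (¬ HasIdentity S ∧
    ∃ g h : WithOne S, g * h * g = g ∧ h * g * h = h ∧
      (a : WithOne S) * g = g * (b : WithOne S) ∧ (b : WithOne S) * h = h * (a : WithOne S))

/-- Points `(i, n, k)`: component `i`, position `n` on the main ray, height `k` on the side path. -/
abbrev X : Type := ℕ × ℕ × ℕ

/-- Component `i` is a ray with a side path of length `s i * n` entering at position `n`. -/
def step (s : ℕ → ℕ) (p : X) : X :=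
  if 1 ≤ p.2.2 ∧ p.2.2 ≤ s p.1 * p.2.1 then (p.1, p.2.1, p.2.2 - 1) else (p.1, p.2.1 + 1, 0)

/-- The standard homomorphisms between such monounary algebras. -/
def tr (σ s : ℕ → ℕ) (p : X) : X :=
  (σ p.1, p.2.1, if p.2.2 ≤ s p.1 * p.2.1 then p.2.2 else 0)

/-- The height function. -/
def ht (s : ℕ → ℕ) (p : X) : ℕ :=
  if p.2.2 ≤ s p.1 * p.2.1 then s p.1 * p.2.1 - p.2.2 else 0

lemma tr_step (σ s s' : ℕ → ℕ) (h : ∀ i, s i ≤ s' (σ i)) (p : X) :
    step s' (tr σ s p) = tr σ s (step s p) := by
  obtain ⟨i, n, k⟩ := p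
  have h1 : s i * n ≤ s' (σ i) * n := Nat.mul_le_mul_right n (h i)
  simp only [step, tr]
  by_cases hk : k ≤ s i * n
  · by_cases hk1 : 1 ≤ k
    · have h2 : k - 1 ≤ s i * n := by omega
      have h3 : k ≤ s' (σ i) * n := by omega
      simp [hk, hk1, h2, h3]
    · have : k = 0 := by omega
      subst this
      simp
  · simp [hk]

lemma tr_tr_tr (σ τ s s' : ℕ → ℕ) (h : ∀ i, s i ≤ s' (σ i)) (h' : ∀ j, s' j ≤ s (τ j))
    (e : ∀ i, σ (τ (σ i)) = σ i) (p : X) :
    tr σ s (tr τ s' (tr σ s p)) = tr σ s p := by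
  obtain ⟨i, n, k⟩ := p
  have h1 : s i * n ≤ s' (σ i) * n := Nat.mul_le_mul_right n (h i)
  have h2 : s' (σ i) * n ≤ s (τ (σ i)) * n := Nat.mul_le_mul_right n (h' _)
  simp only [tr]
  by_cases hk : k ≤ s i * n
  · have h3 : k ≤ s' (σ i) * n := by omega
    have h4 : k ≤ s (τ (σ i)) * n := by omega
    simp [hk, h3, h4, e]
  · simp [hk, e]

lemma step_fst (s : ℕ → ℕ) (p : X) : (step s p).1 = p.1 := by
  unfold step; split_ifs <;> rfl

lemma step_snd (s : ℕ → ℕ) (p : X) : (step s p).2.1 ≤ p.2.1 + 1 := by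
  unfold step; split_ifs <;> simp

lemma ht_step (s : ℕ → ℕ) (hs : ∀ i, 1 ≤ s i) (p : X) : ht s p + 1 ≤ ht s (step s p) := by
  obtain ⟨i, n, k⟩ := p
  have h1 := hs i
  have h2 : s i * (n + 1) = s i * n + s i := by ring
  simp only [ht, step]
  by_cases hk : k ≤ s i * n
  · by_cases hk1 : 1 ≤ k
    · have h3 : k - 1 ≤ s i * n := by omega
      simp only [hk, hk1, and_self, if_true, h3]
      omega
    · have : k = 0 := by omega
      subst this
      simp only [Nat.zero_le, if_true, Nat.sub_zero]
      simp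
      omega
  · simp only [hk, and_false, if_false, Nat.zero_le, if_true]
    omega

lemma ht_le (s : ℕ → ℕ) (p : X) : ht s p ≤ s p.1 * p.2.1 := by
  unfold ht; split_ifs <;> omega

/-- A homomorphism can only map a component to one with at least the same slope. -/
lemma slope_le (s s' : ℕ → ℕ) (hs' : ∀ i, 1 ≤ s' i) (φ : X → X)
    (hφ : ∀ p, step s' (φ p) = φ (step s p)) (p : X) : s p.1 ≤ s' (φ p).1 := by
  obtain ⟨i, n0, k0⟩ := p
  have hκ : ∀ q, (φ (step s q)).1 = (φ q).1 := fun q => by rw [← hφ, step_fst]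
  have hray : ∀ n, step s (i, n, 0) = (i, n + 1, 0) := fun n => by simp [step]
  have c0 : ∀ n, (φ (i, n, 0)).1 = (φ (i, 0, 0)).1 := by
    intro n
    induction n with
    | zero => rfl
    | succ n ih => rw [← hray, hκ, ih]
  have c1 : ∀ k n, (φ (i, n, k)).1 = (φ (i, 0, 0)).1 := by
    intro k
    induction k with
    | zero => exact c0
    | succ k ih =>
      intro n
      rw [← hκ]
      by_cases hk : k + 1 ≤ s i * n
      · have : step s (i, n, k + 1) = (i, n, k) := by simp [step, hk]
        rw [this, ih]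
      · have : step s (i, n, k + 1) = (i, n + 1, 0) := by simp [step, hk]
        rw [this, c0]
  have up : ∀ n, (φ (i, n, 0)).2.1 ≤ (φ (i, 0, 0)).2.1 + n := by
    intro n
    induction n with
    | zero => simp
    | succ n ih =>
      rw [← hray, ← hφ]
      have := step_snd s' (φ (i, n, 0))
      omega
  have low : ∀ n m, m ≤ s i * n → m ≤ ht s' (φ (i, n, s i * n - m)) := by
    intro n m
    induction m with
    | zero => intro _; exact Nat.zero_le _
    | succ m ih =>
      intro hm
      have h1 := ih (by omega)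
      have h2 : step s (i, n, s i * n - m) = (i, n, s i * n - (m + 1)) := by
        have a1 : 1 ≤ s i * n - m := by omega
        have a2 : s i * n - m ≤ s i * n := by omega
        simp only [step, a1, a2, and_self, if_true]
        rfl
      have h3 := ht_step s' hs' (φ (i, n, s i * n - m))
      rw [hφ, h2] at h3
      omega
  rw [c1]
  set j := (φ (i, 0, 0)).1 with hj
  set c := (φ (i, 0, 0)).2.1 with hc
  have key : ∀ n, s i * n ≤ s' j * (c + n) := by
    intro n
    have h1 := low n (s i * n) le_rfl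
    rw [Nat.sub_self] at h1
    have h2 := ht_le s' (φ (i, n, 0))
    rw [c0] at h2
    have h3 := Nat.mul_le_mul_left (s' j) (up n)
    omega
  by_contra hlt
  have hlt : s' j + 1 ≤ s i := by simpa using hlt
  have h1 := key (s' j * c + 1)
  have h2 := Nat.mul_le_mul_right (s' j * c + 1) hlt
  nlinarith

lemma so_of (a b : Function.End X) (g h : X → X) (e1 : ∀ p, g (h (g p)) = g p)
    (e2 : ∀ p, h (g (h p)) = h p) (e3 : ∀ p, a (g p) = g (b p)) (e4 : ∀ p, b (h p) = h (a p)) :
    StrongOConj a b :=
  Or.inl ⟨⟨1, fun x => ⟨one_mul x, mul_one x⟩⟩, g, h, funext e1, funext e2, funext e3, funext e4⟩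

/-- There is a regular semigroup (the full transformation monoid of a countably infinite set)
in which strong o-conjugacy is not transitive. -/
theorem result :
    ∃ (S : Type) (_ : Semigroup S), (∀ x : S, ∃ y : S, x = x * y * x) ∧
      ∃ a b c : S, StrongOConj a b ∧ StrongOConj b c ∧ ¬ StrongOConj a c := by
  refine ⟨Function.End X, inferInstance, ?_,
    step (fun i => 2 * i + 1), step (fun i => i + 1), step (fun i => 2 * i + 2), ?_, ?_, ?_⟩
  · intro f
    refine ⟨Function.invFun f, funext fun p => ?_⟩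
    exact (Function.invFun_eq (f := f) ⟨p, rfl⟩).symm
  · refine so_of _ _ (tr (fun j => (j + 1) / 2) (fun i => i + 1))
      (tr (fun i => 2 * i) (fun i => 2 * i + 1)) ?_ ?_ ?_ ?_
    · exact tr_tr_tr _ _ _ _ (fun i => by omega) (fun i => by omega) (fun i => by omega)
    · exact tr_tr_tr _ _ _ _ (fun i => by omega) (fun i => by omega) (fun i => by omega)
    · exact tr_step _ _ _ (fun i => by omega)
    · exact tr_step _ _ _ (fun i => by omega)
  · refine so_of _ _ (tr (fun i => 2 * i + 1) (fun i => 2 * i + 2))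
      (tr (fun j => j / 2) (fun i => i + 1)) ?_ ?_ ?_ ?_
    · exact tr_tr_tr _ _ _ _ (fun i => by omega) (fun i => by omega) (fun i => by omega)
    · exact tr_tr_tr _ _ _ _ (fun i => by omega) (fun i => by omega) (fun i => by omega)
    · exact tr_step _ _ _ (fun i => by omega)
    · exact tr_step _ _ _ (fun i => by omega)
  · rintro (⟨-, g, h, e1, -, e3, e4⟩ | ⟨hno, -⟩)
    · have f1 : ∀ p, g (h (g p)) = g p := fun p => congrFun e1 p
      have f3 : ∀ p, step (fun i => 2 * i + 1) (g p) = g (step (fun i => 2 * i + 2) p) :=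
        fun p => congrFun e3 p
      have f4 : ∀ p, step (fun i => 2 * i + 2) (h p) = h (step (fun i => 2 * i + 1) p) :=
        fun p => congrFun e4 p
      have k1 := slope_le _ _ (fun i => by omega) g f3 (h (g (0, 0, 0)))
      have k2 := slope_le _ _ (fun i => by omega) h f4 (g (0, 0, 0))
      rw [f1] at k1
      omega
    · exact hno ⟨1, fun x => ⟨one_mul x, mul_one x⟩⟩

end Pool.Agent.Results.MP_d6d41b_al.NotTransitive
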